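import Pool.Agent.H55.CU.Targets

/-!
# Row AAL of cou_modules (helper32): the last excursion
-/

set_option autoImplicit false

open MeasureTheory ProbabilityTheory Filter Topology
open scoped ENNReal
open Pool.Agent.H95 Pool.Agent.H95.Cop Pool.Agent.H96.Cop Pool.Agent.H55.CU

namespace Pool.Agent.H32.CU

private lemma half_le_wt (K : PMF ℕ) (L n : ℕ) (x : ℕ → ℝ) :
    pk K n * 2⁻¹ ≤ Pool.Agent.H96.Cop.wt K L n x := by
  rw [Pool.Agent.H96.Cop.wt]
  split_ifs
  · refine mul_le_mul' le_rfl ?_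
    calc (2⁻¹ : ℝ≥0∞) = 2⁻¹ * 1 := (mul_one _).symm
      _ ≤ 2⁻¹ * (1 + ex 0 n x) := mul_le_mul' le_rfl le_self_add
  · exact le_rfl

private lemma aal (K : PMF ℕ) (L : ℕ) : ∀ s : ℕ, ∀ x : ℕ → ℝ, 1 ≤ s →
    ∑ t ∈ Finset.range s, AA K L t x * (pk K (s - t) * 2⁻¹) ≤ AA K L s x := by
  intro s
  induction s using Nat.strong_induction_on with
  | _ s ih =>
    intro x hs
    obtain ⟨s', rfl⟩ : ∃ s', s = s' + 1 := ⟨s - 1, by omega⟩
    rw [AA_succ, Finset.sum_range_succ', Finset.sum_range_succ]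
    refine add_le_add ?_ ?_
    · have h1 : ∀ t ∈ Finset.range s', AA K L (t + 1) x * (pk K (s' + 1 - (t + 1)) * 2⁻¹) =
          ∑ j ∈ Finset.range (t + 1), (fun j u : ℕ => Pool.Agent.H96.Cop.wt K L (j + 1) x *
            (AA K L u (shift (j + 1) x) * (pk K (s' - j - u) * 2⁻¹))) j (t - j) := by
        intro t ht
        rw [Finset.mem_range] at ht
        rw [AA_succ, Finset.sum_mul]
        refine Finset.sum_congr rfl fun j hj => ?_
        rw [Finset.mem_range] at hj
        have e1 : s' + 1 - (t + 1) = s' - j - (t - j) := by omega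
        simp only
        rw [e1, mul_assoc]
      have h2 := sum_tri s' (fun j u : ℕ => Pool.Agent.H96.Cop.wt K L (j + 1) x *
            (AA K L u (shift (j + 1) x) * (pk K (s' - j - u) * 2⁻¹)))
      refine ((Finset.sum_congr rfl h1).trans h2.symm).trans_le ?_
      refine Finset.sum_le_sum fun j hj => ?_
      rw [Finset.mem_range] at hj
      rw [← Finset.mul_sum]
      exact mul_le_mul' le_rfl (ih (s' - j) (by omega) (shift (j + 1) x) (by omega))
    · rw [AA_zero, one_mul, Nat.sub_zero, Nat.sub_self, AA_zero, mul_one]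
      exact half_le_wt K L (s' + 1) x

theorem pf_AAL : T_AAL := fun K L s x hs => aal K L s x hs

end Pool.Agent.H32.CU
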