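import Pool.Agent.H55.CU.Targets

/-!
# Row FRC of cou_modules (helper32): the fractional moment criterion
-/

set_option autoImplicit false

open MeasureTheory ProbabilityTheory Filter Topology
open scoped ENNReal
open Pool.Agent.H95 Pool.Agent.H95.Cop Pool.Agent.H96.Cop Pool.Agent.H55.CU

namespace Pool.Agent.H32.CU

section

variable (ν : Measure ℝ) [IsProbabilityMeasure ν] (K : PMF ℕ) (k L : ℕ) (θ : ℝ)

private lemma term1 (hM : T_MPL) (hθ0 : 0 < θ) (a b : ℕ) (hab : a < b) :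
    ∫⁻ x, (PL K k L a x) ^ θ * (ex ((a + 1) * k) (b * k) x) ^ θ ∂(iid ν) =
      (∫⁻ x, (PL K k L a x) ^ θ ∂(iid ν)) * Mo ν θ ^ ((b - a - 1) * k) := by
  have hb : (b - a - 1) * k + (a + 1) * k = b * k := by
    rw [← add_mul]; congr 1; omega
  have h1 : ∀ x : ℕ → ℝ, (PL K k L a x) ^ θ * (ex ((a + 1) * k) (b * k) x) ^ θ =
      (fun x => (PL K k L a x) ^ θ) x * (fun y => (ex 0 ((b - a - 1) * k) y) ^ θ)
        (shift ((a + 1) * k) x) := by
    intro x
    simp only
    rw [ex_shift, zero_add, hb]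
  have hdep : DepLt ((a + 1) * k) (fun x => (PL K k L a x) ^ θ) := by
    intro x x' h
    simp only
    rw [(hM K k L a).2.2.1 x x' h]
  have h2 := lint_mul_shift ν hdep ((hM K k L a).1.pow_const θ)
    ((measurable_ex 0 ((b - a - 1) * k)).pow_const θ)
  rw [lintegral_congr h1]
  refine (h2).trans ?_
  rw [lint_ex_rpow ν θ hθ0.le]

private lemma term2 (hM : T_MPL) (hθ0 : 0 < θ) (a b m : ℕ) (hab : a < b) (g : ℝ≥0∞) :
    ∫⁻ x, (PL K k L a x * (g * ex ((a + 1) * k) (b * k) x * Psi K k m (shift (b * k) x))) ^ θ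
      ∂(iid ν) =
      (∫⁻ x, (PL K k L a x) ^ θ ∂(iid ν)) * (g ^ θ * Mo ν θ ^ ((b - a - 1) * k) *
        ∫⁻ x, (Psi K k m x) ^ θ ∂(iid ν)) := by
  have hab' : (a + 1) * k ≤ b * k := Nat.mul_le_mul_right k hab
  have h1 : ∀ x : ℕ → ℝ, (PL K k L a x * (g * ex ((a + 1) * k) (b * k) x *
      Psi K k m (shift (b * k) x))) ^ θ = g ^ θ * ((fun x => (PL K k L a x) ^ θ *
      (ex ((a + 1) * k) (b * k) x) ^ θ) x * (fun y => (Psi K k m y) ^ θ) (shift (b * k) x)) := by
    intro x
    simp only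
    rw [ENNReal.mul_rpow_of_nonneg _ _ hθ0.le, ENNReal.mul_rpow_of_nonneg _ _ hθ0.le,
      ENNReal.mul_rpow_of_nonneg _ _ hθ0.le]
    ring
  have hdep : DepLt (b * k) (fun x => (PL K k L a x) ^ θ * (ex ((a + 1) * k) (b * k) x) ^ θ) := by
    intro x x' h
    simp only
    rw [((hM K k L a).2.2.1).mono hab' x x' h, ex_dep _ _ x x' h]
  have hm1 : Measurable (fun x => (PL K k L a x) ^ θ * (ex ((a + 1) * k) (b * k) x) ^ θ) :=
    ((hM K k L a).1.pow_const θ).mul ((measurable_ex _ _).pow_const θ)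
  have hm2 : Measurable (fun y => (Psi K k m y) ^ θ) := (measurable_Psi K k m).pow_const θ
  have h2 := lint_mul_shift ν hdep hm1 hm2
  have hm3 : Measurable (fun x => (fun x => (PL K k L a x) ^ θ *
      (ex ((a + 1) * k) (b * k) x) ^ θ) x *
      (fun y => (Psi K k m y) ^ θ) (shift (b * k) x)) := hm1.mul (hm2.comp (measurable_shift _))
  rw [lintegral_congr h1, lintegral_const_mul _ hm3]
  have h3 := term1 ν K k L θ hM hθ0 a b hab
  calc g ^ θ * ∫⁻ x, (fun x => (PL K k L a x) ^ θ * (ex ((a + 1) * k) (b * k) x) ^ θ) x *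
        (fun y => (Psi K k m y) ^ θ) (shift (b * k) x) ∂(iid ν)
      = g ^ θ * ((∫⁻ x, (PL K k L a x) ^ θ * (ex ((a + 1) * k) (b * k) x) ^ θ ∂(iid ν)) *
        ∫⁻ x, (Psi K k m x) ^ θ ∂(iid ν)) := by rw [← h2]
    _ = _ := by rw [h3]; ring

end

theorem pf_FRC (hCOA : T_COA) (hMPL : T_MPL) : T_FRC := by
  intro K hK0 ν _ k L hk hkL G hG θ hθ0 hθ1 hMo F F' Γ hF hF' hΓ hFΓ n hn
  induction n using Nat.strong_induction_on with
  | _ n ih =>
    set φ : ℕ → ℝ≥0∞ := fun a => ∫⁻ x, (PL K k L a x) ^ θ ∂(iid ν) with hφ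
    set φ' : ℕ → ℝ≥0∞ := fun a => ∫⁻ x, (PQ K k L a x) ^ θ ∂(iid ν) with hφ'
    have hpt : ∀ x : ℕ → ℝ, (Psi K k n x) ^ θ ≤ ∑ a ∈ Finset.range n,
        (∑ b ∈ Finset.Ico (a + 1) n, (PL K k L a x * (G (b - a) *
        ex ((a + 1) * k) (b * k) x * Psi K k (n - b) (shift (b * k) x))) ^ θ +
        (PL K k L a x) ^ θ * (ex ((a + 1) * k) (n * k) x) ^ θ + (PQ K k L a x) ^ θ) := by
      intro x
      refine (ENNReal.rpow_le_rpow (hCOA K hK0 k L hk hkL G hG n hn x) hθ0.le).trans ?_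
      refine (rpow_sum_le _ _ θ hθ0 hθ1).trans ?_
      apply Finset.sum_le_sum
      intro a _
      refine (ENNReal.rpow_add_le_add_rpow _ _ hθ0.le hθ1).trans ?_
      refine add_le_add ?_ le_rfl
      rw [mul_add]
      refine (ENNReal.rpow_add_le_add_rpow _ _ hθ0.le hθ1).trans ?_
      refine add_le_add ?_ (le_of_eq (ENNReal.mul_rpow_of_nonneg _ _ hθ0.le))
      rw [Finset.mul_sum]
      exact rpow_sum_le _ _ θ hθ0 hθ1
    refine (lintegral_mono hpt).trans ?_
    have hmt : ∀ a b : ℕ, Measurable (fun x : ℕ → ℝ => (PL K k L a x * (G (b - a) *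
        ex ((a + 1) * k) (b * k) x * Psi K k (n - b) (shift (b * k) x))) ^ θ) := fun a b =>
      ((hMPL K k L a).1.mul (((measurable_ex _ _).const_mul _).mul
        ((measurable_Psi K k _).comp (measurable_shift _)))).pow_const θ
    have hmt2 : ∀ a : ℕ, Measurable (fun x : ℕ → ℝ => (PL K k L a x) ^ θ *
        (ex ((a + 1) * k) (n * k) x) ^ θ) := fun a =>
      ((hMPL K k L a).1.pow_const θ).mul ((measurable_ex _ _).pow_const θ)
    have hmt3 : ∀ a : ℕ, Measurable (fun x : ℕ → ℝ => (PQ K k L a x) ^ θ) := fun a =>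
      (hMPL K k L a).2.1.pow_const θ
    have hmt1 : ∀ a : ℕ, Measurable (fun x : ℕ → ℝ => ∑ b ∈ Finset.Ico (a + 1) n,
        (PL K k L a x * (G (b - a) *
        ex ((a + 1) * k) (b * k) x * Psi K k (n - b) (shift (b * k) x))) ^ θ) := fun a =>
      Finset.measurable_sum _ (fun b _ => hmt a b)
    rw [lintegral_finsetSum]
    swap
    · intro a _
      exact ((hmt1 a).add (hmt2 a)).add (hmt3 a)
    have hstep : ∀ a ∈ Finset.range n, ∫⁻ x, (∑ b ∈ Finset.Ico (a + 1) n,
        (PL K k L a x * (G (b - a) *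
        ex ((a + 1) * k) (b * k) x * Psi K k (n - b) (shift (b * k) x))) ^ θ +
        (PL K k L a x) ^ θ * (ex ((a + 1) * k) (n * k) x) ^ θ + (PQ K k L a x) ^ θ) ∂(iid ν) ≤
        φ a * (Γ * (2 * (F + F')) + 1) + φ' a := by
      intro a ha
      rw [Finset.mem_range] at ha
      have hmt4 : Measurable (fun x : ℕ → ℝ => ∑ b ∈ Finset.Ico (a + 1) n,
        (PL K k L a x * (G (b - a) *
        ex ((a + 1) * k) (b * k) x * Psi K k (n - b) (shift (b * k) x))) ^ θ +
        (PL K k L a x) ^ θ * (ex ((a + 1) * k) (n * k) x) ^ θ) := (hmt1 a).add (hmt2 a)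
      rw [lintegral_add_left hmt4, lintegral_add_left (hmt1 a),
        lintegral_finsetSum _ (fun b _ => hmt a b)]
      have s1 : ∑ b ∈ Finset.Ico (a + 1) n, ∫⁻ x, (PL K k L a x * (G (b - a) *
          ex ((a + 1) * k) (b * k) x * Psi K k (n - b) (shift (b * k) x))) ^ θ ∂(iid ν) ≤
          φ a * (Γ * (2 * (F + F'))) := by
        calc ∑ b ∈ Finset.Ico (a + 1) n, ∫⁻ x, (PL K k L a x * (G (b - a) *
              ex ((a + 1) * k) (b * k) x * Psi K k (n - b) (shift (b * k) x))) ^ θ ∂(iid ν)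
            ≤ ∑ b ∈ Finset.Ico (a + 1) n, φ a * ((G (b - a)) ^ θ * Mo ν θ ^ ((b - a - 1) * k) *
              (2 * (F + F'))) := by
              apply Finset.sum_le_sum
              intro b hb
              rw [Finset.mem_Ico] at hb
              rw [term2 ν K k L θ hMPL hθ0 a b (n - b) (by omega) _]
              have := ih (n - b) (by omega) (by omega)
              gcongr
          _ = φ a * ((∑ b ∈ Finset.Ico (a + 1) n, (G (b - a)) ^ θ * Mo ν θ ^ ((b - a - 1) * k)) *
              (2 * (F + F'))) := by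
              rw [← Finset.mul_sum, Finset.sum_mul]
          _ ≤ φ a * (Γ * (2 * (F + F'))) := by
              have h1 : ∑ b ∈ Finset.Ico (a + 1) n, (G (b - a)) ^ θ * Mo ν θ ^ ((b - a - 1) * k) =
                  ∑ j ∈ Finset.Ico 1 (n - a), (G j) ^ θ * Mo ν θ ^ ((j - 1) * k) := by
                have e1 : a + 1 = 1 + a := by omega
                have e2 : n = n - a + a := by omega
                rw [e1]
                conv_lhs => rw [e2]
                rw [← Finset.sum_Ico_add' (fun b => (G (b - a)) ^ θ * Mo ν θ ^ ((b - a - 1) * k)) 1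
                  (n - a) a]
                apply Finset.sum_congr rfl
                intro j _
                rw [Nat.add_sub_cancel]
              rw [h1]
              have h2 := hΓ (n - a)
              gcongr
      have s2 : ∫⁻ x, (PL K k L a x) ^ θ * (ex ((a + 1) * k) (n * k) x) ^ θ ∂(iid ν) ≤ φ a := by
        rw [term1 ν K k L θ hMPL hθ0 a n ha]
        exact mul_le_of_le_one_right' (pow_le_one' hMo _)
      calc _ ≤ φ a * (Γ * (2 * (F + F'))) + φ a + φ' a := add_le_add (add_le_add s1 s2) le_rfl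
        _ = φ a * (Γ * (2 * (F + F')) + 1) + φ' a := by ring
    refine (Finset.sum_le_sum hstep).trans ?_
    rw [Finset.sum_add_distrib, ← Finset.sum_mul]
    calc (∑ a ∈ Finset.range n, φ a) * (Γ * (2 * (F + F')) + 1) + ∑ a ∈ Finset.range n, φ' a
        ≤ F * (Γ * (2 * (F + F')) + 1) + F' := by
          have h1 := hF n
          have h2 := hF' n
          gcongr
      _ = (F * Γ) * (2 * (F + F')) + (F + F') := by ring
      _ ≤ 2⁻¹ * (2 * (F + F')) + (F + F') := by gcongr
      _ = 2 * (F + F') := by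
          rw [← mul_assoc, ENNReal.inv_mul_cancel (by norm_num) (by norm_num), one_mul, two_mul]

end Pool.Agent.H32.CU
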