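import Pool.Agent.H55.CU.Targets

/-!
# Row SPL of cou_modules (helper32): sums of powers
-/

set_option autoImplicit false

open MeasureTheory ProbabilityTheory Filter Topology
open scoped ENNReal
open Pool.Agent.H95 Pool.Agent.H95.Cop Pool.Agent.H96.Cop Pool.Agent.H55.CU

namespace Pool.Agent.H32.CU

theorem pf_SPL : T_SPL := by
  intro ε hε n
  constructor
  · rcases Nat.eq_zero_or_pos n with hn | hn
    · subst hn
      have : Finset.Ico 1 0 = (∅ : Finset ℕ) := by simp
      rw [this, Finset.sum_empty]
      positivity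
    · have h := sum_pow_up hε (le_refl 1) (show 1 ≤ n from hn)
      have h1 : ∑ a ∈ Finset.Ico 1 n, (1 + (a : ℝ)) ^ (-(1 + ε)) =
          ∑ j ∈ Finset.Ico 1 n, ((j : ℝ) + 1) ^ (-(1 + ε)) :=
        Finset.sum_congr rfl fun a _ => by rw [add_comm]
      rw [h1]
      refine h.trans ?_
      apply div_le_div_of_nonneg_right _ hε.le
      have h2 : (0 : ℝ) ≤ (n : ℝ) ^ (-ε) := Real.rpow_nonneg (Nat.cast_nonneg _) _
      rw [Nat.cast_one, Real.one_rpow]
      linarith
  · intro hn
    induction n, hn using Nat.le_induction with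
    | base => simp
    | succ n hn ih =>
      rw [Finset.sum_Ico_succ_top hn]
      have hn0 : (0 : ℝ) < n := by exact_mod_cast hn
      have h1 : (1 + (n : ℝ)) ^ (-(1 + ε)) ≤ (1 + (n : ℝ))⁻¹ := by
        rw [← Real.rpow_neg_one]
        exact Real.rpow_le_rpow_of_exponent_le (by linarith) (by linarith)
      have h2 : Real.log ((n : ℝ) / (n + 1)) ≤ (n : ℝ) / (n + 1) - 1 :=
        Real.log_le_sub_one_of_pos (by positivity)
      rw [Real.log_div hn0.ne' (by positivity)] at h2
      have h3 : (n : ℝ) / (n + 1) - 1 = -(1 + (n : ℝ))⁻¹ := by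
        field_simp
        ring
      rw [h3] at h2
      push_cast
      linarith

end Pool.Agent.H32.CU
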